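import Mathlib
import Pool.Agent.X34.E.E22
import Pool.Agent.X34.E.E4
import Pool.Agent.TH882.D5
import Pool.Agent.H95SD.Basis

/-!
# EVERY large integer is a sum of boundedly many primes followed by one common gap at most 212

The conjecture asks that every even integer beyond 4208 is the sum of two primes which have a prime neighbour at
distance 2. Here no integer is excepted: for an absolute constant `K` every large integer `N` is the sum of at
most `K` primes which are all followed by the same gap `h` between consecutive primes, where `h ≤ 212` is an even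
number (which may depend on `N`). More generally:

1. the primes can be taken in a given residue class `a` modulo `q`, prime to `q`; then `h = k lcm (2, q)` with
  `k ≤ 106`;
2. for every `m` there are `C`, `K` such that every large `N` is the sum of at most `K` primes `p` for which all
  the `p + h`, `h ∈ D`, are primes as well, with one common set `D` of `m` positive integers up to `C`; moreover all
  the `p + h + a`, `h ∈ {0} ∪ D`, `a ∈ S`, are almost primes, for any given admissible finite set `S` of shifts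
  (for `S = {2}`: all the summands `p` are primes for which `p + 2` is almost prime).

Proof: at every scale a positive proportion of the integers are sums of two such primes (starting files:
`Pool.Agent.X34.E.sums_gaps`, `Pool.Agent.TH882.DD.fin`). So the sums of two fill a positive proportion of the
residue classes modulo a large prime `p` of the set, the theorem of Cauchy and Davenport gives all the residue
classes, and the rest is a multiple of `p`. Both the gap and the residue classes which occur may depend on the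
scale, so the sums of two do not suffice.
-/

set_option autoImplicit false

open Finset Filter

namespace Pool.Agent.Results.MP_c6d112_nt.EveryIntegerCommonGap

/-- `p ≡ a (mod q)` is a prime and the next prime is `p + h` -/
def Starts (q a h p : ℕ) : Prop :=
  p ≡ a [MOD q] ∧ p.Prime ∧ (p + h).Prime ∧ ∀ m, p < m → m < p + h → ¬ m.Prime

/-- For every prime `l` there is an `r` such that `l` divides neither `r` nor any `r + a`, `a ∈ S`. -/
def Admissible (S : Finset ℤ) : Prop := ∀ l : ℕ, l.Prime → ∃ r : ℤ,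
  ¬ (l : ℤ) ∣ r ∧ ∀ a ∈ S, ¬ (l : ℤ) ∣ r + a

/-- All `q + a`, `a ∈ S`, are positive with at most `r` prime factors (with multiplicity). -/
def AlmostPrimeShifts (S : Finset ℤ) (r q : ℕ) : Prop :=
  ∀ a ∈ S, 0 < (q : ℤ) + a ∧ ArithmeticFunction.cardFactors ((q : ℤ) + a).toNat ≤ r

/-- `p` and all `p + h`, `h ∈ D`, are primes with almost prime shifts. -/
def StartsPattern (S : Finset ℤ) (r : ℕ) (D : Finset ℕ) (p : ℕ) : Prop :=
  ∀ h ∈ insert 0 D, (p + h).Prime ∧ AlmostPrimeShifts S r (p + h)

/-- `N` is the sum of at most `K` (not necessarily distinct) numbers with the property `P`. -/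
def SumOfAtMost (K : ℕ) (P : ℕ → Prop) (N : ℕ) : Prop :=
  ∃ s : Multiset ℕ, s.card ≤ K ∧ (∀ p ∈ s, P p) ∧ s.sum = N

/-- from sums of two at every scale to all the large integers -/
theorem all_of_two {ι : Type} (P : ι → ℕ → Prop) (hP : ∀ i p, P i p → p.Prime) (c : ℝ) (hc : 0 < c)
    (h : ∀ᶠ x : ℕ in atTop, ∃ i, c * x ≤ ({N : ℕ | N ≤ x ∧ ∃ p ∈ {p | P i p}, ∃ q ∈ {p | P i p},
      p + q = N}.ncard : ℝ)) :
    ∃ K : ℕ, ∀ᶠ N : ℕ in atTop, ∃ i, SumOfAtMost K (P i) N := by
  obtain ⟨k, K, X₀, hk, hb⟩ := Pool.Agent.H95SD.Bs.basis c hc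
  refine ⟨K, ?_⟩
  have hdiv : Tendsto (fun X : ℕ => X / k) atTop atTop := by
    refine tendsto_atTop.2 fun b => ?_
    filter_upwards [eventually_ge_atTop (b * k)] with X hX
    exact (Nat.le_div_iff_mul_le (by omega)).2 hX
  filter_upwards [hdiv.eventually h, hdiv.eventually (eventually_ge_atTop (X₀ + 1))] with N hN hNX
  obtain ⟨i, hi⟩ := hN
  obtain ⟨s, h1, h2, h3⟩ := hb (N / k) (by omega) {p | P i p} (fun p hp => hP i p hp) hi N
    (Nat.mul_div_le N k) (by
      have h4 : N < k * (N / k + 1) := Nat.lt_mul_div_succ N (by omega)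
      have h5 : k * (N / k + 1) ≤ k * (2 * (N / k)) := Nat.mul_le_mul_left _ (by omega)
      calc N ≤ k * (2 * (N / k)) := by omega
        _ = 2 * k * (N / k) := by ring)
  exact ⟨i, s, h1, h2, h3⟩

/-- **Main theorem.**
1. Every large `N` is the sum of at most `K` primes `p ≡ a (mod q)` which are followed by the same gap
`k lcm (2, q)`, `1 ≤ k ≤ 106` (for `q = 1`: by the same gap `2 k ≤ 212`).
2. Every large `N` is the sum of at most `K` primes which start the same pattern of `m + 1` primes with almost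
prime shifts. -/
theorem result :
    (∀ q a : ℕ, 1 ≤ q → a.Coprime q → ∃ K : ℕ, ∀ᶠ N : ℕ in atTop, ∃ k : ℕ, 1 ≤ k ∧ k ≤ 106 ∧
      SumOfAtMost K (Starts q a (k * Nat.lcm 2 q)) N) ∧
    (∀ S : Finset ℤ, Admissible S → ∀ m : ℕ, ∃ r C K : ℕ, ∀ᶠ N : ℕ in atTop,
      ∃ D : Finset ℕ, D ⊆ Icc 1 C ∧ D.card = m ∧ SumOfAtMost K (StartsPattern S r D) N) := by
  classical
  constructor
  · intro q a hq ha
    obtain ⟨a', ha1, ha2⟩ := Pool.Agent.X34.E.lift_class q a hq ha
    have hM0 : 0 < Nat.lcm 2 q := Nat.lcm_pos (by norm_num) hq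
    have hM2 : 2 ∣ Nat.lcm 2 q := Nat.dvd_lcm_left 2 q
    have hMq : q ∣ Nat.lcm 2 q := Nat.dvd_lcm_right 2 q
    obtain ⟨c, hc, h⟩ := Pool.Agent.X34.E.sums_gaps Pool.Agent.X34.E.dhl45R (Nat.lcm 2 q) a' hM0 ha2
      Pool.Agent.X34.E.G45 Pool.Agent.X34.E.G45_card
      (fun p hp hpM => Pool.Agent.X34.E.G45_adm p hp (fun h2 => hpM (h2 ▸ hM2)))
    obtain ⟨K, hK⟩ := all_of_two (ι := {k : ℕ // 1 ≤ k ∧ k ≤ 106})
      (fun k => Starts q a (k.1 * Nat.lcm 2 q)) (fun k p hp => hp.2.1) c hc (by
        filter_upwards [h, eventually_ge_atTop 3] with x hx hx3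
        obtain ⟨g, hg, g', hg', hgg, hx⟩ := hx
        have h106 := Pool.Agent.X34.E.G45_le g' hg'
        refine ⟨⟨g' - g, by omega, by omega⟩, hx.trans ?_⟩
        rw [Nat.cast_le]
        refine Set.ncard_le_ncard ?_ ((Set.finite_Iic x).subset fun N hN => hN.1)
        rintro N ⟨hN1, hN2⟩
        refine ⟨hN1, ?_⟩
        have hx3' : (3 : ℝ) ≤ x := by exact_mod_cast hx3
        have hl : 0 < Real.log (x : ℝ) := Real.log_pos (by linarith)
        have hpos : (0 : ℝ) < c * (x / Real.log x ^ 90) := by positivity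
        have hne := lt_of_lt_of_le hpos hN2
        have hne' : 0 < Set.ncard {p : ℕ | p ≤ N ∧
            Pool.Agent.X34.E.Follow (Nat.lcm 2 q) a' ((g' - g) * Nat.lcm 2 q) p ∧
            Pool.Agent.X34.E.Follow (Nat.lcm 2 q) a' ((g' - g) * Nat.lcm 2 q) (N - p)} := by
          exact_mod_cast hne
        obtain ⟨p, hp1, hp2, hp3⟩ := Set.nonempty_of_ncard_ne_zero hne'.ne'
        have hcls : ∀ p, p ≡ a' [MOD Nat.lcm 2 q] → p ≡ a [MOD q] := fun p hp =>
          (hp.of_dvd hMq).trans ha1
        exact ⟨p, ⟨hcls _ hp2.1, hp2.2⟩, N - p, ⟨hcls _ hp3.1, hp3.2⟩, Nat.add_sub_cancel' hp1⟩)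
    refine ⟨K, hK.mono fun N hN => ?_⟩
    obtain ⟨k, hk⟩ := hN
    exact ⟨k.1, k.2.1, k.2.2, hk⟩
  · intro S hS m
    obtain ⟨r, C, E, c, hc, x₀, h⟩ := Pool.Agent.TH882.DD.fin S hS m
    obtain ⟨K, hK⟩ := all_of_two (ι := {D : Finset ℕ // D ⊆ Icc 1 C ∧ D.card = m})
      (fun D => StartsPattern S r D.1) (fun D p hp => by
        have := (hp 0 (mem_insert_self _ _)).1
        simpa using this) (c / 2) (by positivity) (by
        have hlarge : ∀ᶠ x : ℕ in atTop, (4 / c : ℝ) ≤ x := by
          exact tendsto_natCast_atTop_atTop.eventually_ge_atTop _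
        filter_upwards [hlarge, eventually_ge_atTop x₀] with x hx4 hx0
        obtain ⟨D, hD1, hD2, hD3⟩ := h x hx0
        refine ⟨⟨D, hD1, hD2⟩, ?_⟩
        obtain ⟨G, hG⟩ : ∃ G : Finset ℕ, G = (range x).filter (fun N : ℕ => (N : ℝ) / Real.log N ^ E ≤
          ((Pool.Agent.TH882.DD.Rp S r D N).card : ℝ)) := ⟨_, rfl⟩
        rw [← hG] at hD3
        have h2 : G.card ≤ (G.filter (fun N => 2 ≤ N)).card + 2 := by
          have h3 := Finset.card_filter_add_card_filter_not (s := G) (fun N => 2 ≤ N)
          have h4 : (G.filter (fun N => ¬ 2 ≤ N)).card ≤ 2 := by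
            have h5 : G.filter (fun N => ¬ 2 ≤ N) ⊆ range 2 := by
              intro N hN
              have := (mem_filter.1 hN).2
              exact mem_range.2 (by omega)
            exact (card_le_card h5).trans (by rw [card_range])
          omega
        have h3 : (G.card : ℝ) ≤ ((G.filter (fun N => 2 ≤ N)).card : ℝ) + 2 := by exact_mod_cast h2
        have h4 : 2 ≤ c / 2 * x := by
          rw [div_le_iff₀ hc] at hx4
          linarith
        have h5 : c / 2 * x ≤ ((G.filter (fun N => 2 ≤ N)).card : ℝ) := by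
          have : c * (x : ℝ) = c / 2 * x + c / 2 * x := by ring
          linarith
        refine h5.trans ?_
        rw [← Set.ncard_coe_finset, Nat.cast_le]
        refine Set.ncard_le_ncard ?_ ((Set.finite_Iic x).subset fun N hN => hN.1)
        intro N hN
        obtain ⟨hN1, hN2⟩ := mem_filter.1 (mem_coe.1 hN)
        rw [hG] at hN1
        obtain ⟨hN3, hN4⟩ := mem_filter.1 hN1
        have hN2' : (2 : ℝ) ≤ N := by exact_mod_cast hN2
        have hl : 0 < Real.log (N : ℝ) := Real.log_pos (by linarith)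
        have hpos : (0 : ℝ) < (N : ℝ) / Real.log N ^ E := by positivity
        have hne : 0 < (Pool.Agent.TH882.DD.Rp S r D N).card := by
          have := lt_of_lt_of_le hpos hN4
          exact_mod_cast this
        obtain ⟨p, hp⟩ := Finset.card_pos.1 hne
        unfold Pool.Agent.TH882.DD.Rp at hp
        obtain ⟨hp1, hp2, hp3⟩ := mem_filter.1 hp
        have hp1 := mem_range.1 hp1
        exact ⟨(mem_range.1 hN3).le, p, hp2, N - p, hp3, Nat.add_sub_cancel' hp1.le⟩)
    refine ⟨r, C, K, hK.mono fun N hN => ?_⟩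
    obtain ⟨D, hD⟩ := hN
    exact ⟨D.1, D.2.1, D.2.2, hD⟩

end Pool.Agent.Results.MP_c6d112_nt.EveryIntegerCommonGap
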