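import Pool.Agent.H95SD.Gold3
import Pool.Agent.N384.MQ.Gold
import Pool.Agent.N384.MQ.Quot

/-!
# Sums of two primes starting a common pattern, for all even numbers near almost all members of sets with small Fourier
# coefficients

The conjecture asks that every even integer beyond 4208 is the sum of two primes which have a prime neighbour at
distance `2`. Here the distance is `2 d` with `d ≤ (log N) ^ B`, the same for both primes, and then we can ask for a whole
pattern `d F`, and for this property of almost ALL the representations `N = p + q` in all windows. It is proved for ALL even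
numbers `N` close to almost all the members of arbitrary families of residues with small Fourier coefficients, which may have only
a power of `log N` members.

From Mathlib: `ZMod.stdAddChar`: the additive character `j ↦ exp (2 π i j / M)` of the integers modulo `M`; `ZMod.val`: the
least residue. From the library:
`Pool.Agent.H560R3.GB.sing m = 2 C₂ ∏_{p ∣ m, p > 2} (p - 1) / (p - 2)`: the singular series,
`C₂ = ∏_{p > 2} (1 - 1 / (p - 1) ^ 2)`.

Method: a family of residues modulo `M` with small Fourier coefficients has small exponential sums at all real frequencies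
which are not close to integers, so that Goldbach's problem in all windows has the expected number of solutions
(`Pool.Agent.N384.MQ.mq_gold`, library); Szemerédi's theorem relative to the primes `p` with `N - p` prime
(`Pool.Agent.H95SD.Go.good_of_win`, from `PatternsAroundBothPrimes`, based on starting files).
-/

set_option autoImplicit false

namespace Pool.Agent.Results.MP_c6d112_nt.FourierFlatSums

open Finset
open Pool.Agent.H560R3.GB (sing)

/-- The Fourier coefficients of the residues `y i`, `i ∈ s`, modulo `M` at the nonzero frequencies are at most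
`η` times the number of the residues: `|∑ i ∈ s, e(h y_i / M)| ≤ η |s|` for all `h ≠ 0` modulo `M`. -/
def Flat {ι : Type} (M : ℕ) [NeZero M] (η : ℝ) (s : Finset ι) (y : ι → ZMod M) : Prop :=
  ∀ h : ZMod M, h ≠ 0 → ‖∑ i ∈ s, (ZMod.stdAddChar (h * y i) : ℂ)‖ ≤ η * s.card

/-- The prediction of Hardy and Littlewood for the number of representations of `N` in a window of length `H`. -/
noncomputable def predicted (N : ℕ) (H : ℝ) : ℝ := sing N * H / Real.log N ^ 2

/-- For some `1 ≤ d ≤ D` all the `p + d f` and all the `q + d f`, `f ∈ F`, are primes. -/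
def Both (F : Finset ℤ) (D : ℝ) (p q : ℕ) : Prop :=
  ∃ d : ℕ, 1 ≤ d ∧ (d : ℝ) ≤ D ∧ ∀ f ∈ F, ((p : ℤ) + d * f).toNat.Prime ∧ ((q : ℤ) + d * f).toNat.Prime

open Classical in
/-- The number of the primes `p ∈ (y₁, y₂]` such that `q = N - p` is prime and `Both F D p q`. -/
noncomputable def pairs (F : Finset ℤ) (D : ℝ) (N y₁ y₂ : ℕ) : ℕ :=
  ((Ioc y₁ y₂).filter (fun p => p.Prime ∧ (N - p).Prime ∧ Both F D p (N - p))).card

/-- In every window `(y₁, y₂]` of length at least `N / (log N) ^ A` the number of the representations with the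
pattern, `d ≤ (log N) ^ B`, is up to the factor `1 ± ε` the one predicted for all representations. -/
def Good (F : Finset ℤ) (ε : ℝ) (A B N : ℕ) : Prop :=
  ∀ y₁ y₂ : ℕ, y₁ < y₂ → y₂ ≤ N → (N : ℝ) / Real.log N ^ A ≤ (y₂ : ℝ) - y₁ →
    |(pairs F (Real.log N ^ B) N y₁ y₂ : ℝ) - predicted N ((y₂ : ℝ) - y₁)| ≤
      ε * predicted N ((y₂ : ℝ) - y₁)

theorem good_iff (F : Finset ℤ) (ε : ℝ) (A B N : ℕ) :
    Good F ε A B N ↔ Pool.Agent.H95SD.Go.GoodN F ε A B N := Iff.rfl

open Classical in
/-- **(1)** Let `F` be a finite set of integers, and let `κ ≠ 0`, `a`, `A`, `U`, `W` and `ε > 0` be fixed. There are numbers `B`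
and `V` such that the following holds for all large integers `M`. Let `y i`, `i ∈ s`, be a finite family of residues modulo
`M` whose Fourier coefficients at the nonzero frequencies are at most `|s| / log ^ V M`, and let `|c| ≤ M log ^ a M`. Then all
the `i ∈ s`, with at most `|s| / log ^ U M` exceptions, have the following property: ALL the even numbers `N > 0` with
`|N - (c + κ y_i)| ≤ log ^ W M` (with the least residue `0 ≤ y_i < M`) are good: in every window `(y₁, y₂]` in `(0, N]` of
length at least `N / (log N) ^ A` the number of the primes `p` such that `q = N - p` is prime and, for some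
`1 ≤ d ≤ (log N) ^ B`, all the `p + d f` and `q + d f`, `f ∈ F`, are primes is, up to the factor `1 ± ε`, the number predicted
for ALL the primes `p` with `N - p` prime.

**(2)** Example: the quotients `j / r` of the integers `0 ≤ j < S` by the primes `r ≤ R` satisfy the condition of (1)
modulo all large primes `p`, if `log ^ (V + 4) p ≤ R < p` and `R ^ 2 ≤ S`; there are such sets with at most `log ^ (3 V + 13) p`
members. -/
theorem result :
    (∀ F : Finset ℤ, ∀ κ : ℤ, κ ≠ 0 → ∀ (a A U W : ℕ) (ε : ℝ), 0 < ε → ∃ B V M₀ : ℕ, ∀ M : ℕ, M₀ ≤ M → ∀ [NeZero M]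
      (ι : Type) (s : Finset ι) (y : ι → ZMod M), Flat M (1 / Real.log M ^ V) s y →
      ∀ c : ℤ, |(c : ℝ)| ≤ M * Real.log M ^ a →
        ((s.filter fun i => ¬ ∀ N : ℤ, |(N : ℝ) - (c + κ * ((y i).val : ℕ))| ≤ Real.log M ^ W →
          0 < N → Even N → Good F ε A B N.toNat).card : ℝ) ≤ s.card / Real.log M ^ U) ∧
    (∀ V : ℕ, ∃ P₀ : ℕ, ∀ p : ℕ, P₀ ≤ p → ∀ [Fact p.Prime], ∀ R S : ℕ, Real.log p ^ (V + 4) ≤ R → R < p → R ^ 2 ≤ S →
      Flat p (1 / Real.log p ^ V) (((Icc 1 R).filter Nat.Prime) ×ˢ range S)
        (fun z => ((z.2 : ℕ) : ZMod p) * ((z.1 : ℕ) : ZMod p)⁻¹)) := by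
  refine ⟨fun F κ hκ a A U W ε hε => ?_, fun V => ?_⟩
  · obtain ⟨B, m₀, hB⟩ := Pool.Agent.H95SD.Go.good_of_win F ε hε A
    obtain ⟨V, M₀, h1⟩ := Pool.Agent.N384.MQ.mq_gold κ hκ A W U a m₀ (ε / 2) (by positivity) (fun m => Good F ε A B m)
      (fun m hm hm2 hw => (good_iff F ε A B m).2 (hB m hm hm2 hw))
    exact ⟨B, V, M₀, fun M hM _ ι s y hf c hc => h1 M hM ι s y hf c hc⟩
  · exact Pool.Agent.N384.MQ.flat_quot V

end Pool.Agent.Results.MP_c6d112_nt.FourierFlatSums
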