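import Pool.Agent.H95SD.Two
import Pool.Agent.H95SD.Sift

/-!
# Sums of two primes followed by primes at one common distance, for one of four small multiples of almost all numbers

The conjecture asks that every even integer beyond 4208 is the sum of two twin primes. Here the distance `2` is
replaced by a distance `h` from a very short list which depends on a parameter `a`, for example `h` is one of
`2 a, 4 a, 6 a, 8 a`, and `a` runs over almost all elements of arbitrary sparse sets of sieve type, for example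
over almost all primes: for one of these four `h`

* a positive proportion of the integers `N ≤ x` are sums `N = p + p'` of two primes for which `p + h`, `p' + h` are
  prime as well, and
* every `N` between `q x` and `2 q x` is the sum of at most `K` such primes,

for arbitrarily large `x`, with the same `h`. The exceptional set contains no `k` terms of an arithmetic
progression. More generally, let `E` be an admissible finite set of natural numbers and `18 l < 5 |E|`; for
every arithmetic progression of `k = k(E)` terms there is at every scale one constellation of `l + 1` primes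
with differences `m_j - m_i ∈ (j - i) A` (`i < j` in `E`), `A` the set of the terms of the progression, such
that a positive proportion of the integers up to `x` are sums of two primes which both start this constellation,
and such that EVERY integer between `q x` and `2 q x` is the sum of at most `K` of them. So every large integer is
the sum of at most `K` primes which start one common constellation of this kind.

Starting files: the coloured Maynard-Tao theorem of the right order of magnitude (`Pool.Agent.Y827.RO.lamR0`), the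
passage from sets of rough numbers to their sums (`Pool.Agent.X34.E.sums_core`), the relative Szemerédi theorem
for sifted sets (`Pool.Agent.Y843.HS.fin`).
-/

set_option autoImplicit false

open Finset Filter

namespace Pool.Agent.Results.MP_c6d112_nt.MultiplesOfAlmostAll

/-- For no prime `q` do the numbers `m i`, `i ∈ S`, meet every residue class modulo `q`. -/
def Admissible (S : Finset ℕ) (m : ℕ → ℕ) : Prop :=
  ∀ q : ℕ, q.Prime → ∃ r < q, ∀ i ∈ S, m i % q ≠ r

/-- `S` is a subset of `E`, the shifts `m i`, `i ∈ S`, are admissible, the first one is `0`, and every difference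
`m j - m i`, `i < j`, is `(j - i) a` for some element `a` of `A`. -/
structure Pattern (E : Finset ℕ) (A : Set ℕ) (S : Finset ℕ) (m : ℕ → ℕ) : Prop where
  sub : S ⊆ E
  adm : Admissible S m
  zero : ∀ i ∈ S, (∀ j ∈ S, i ≤ j) → m i = 0
  diff : ∀ i ∈ S, ∀ j ∈ S, i < j → ∃ a ∈ A, m j = m i + (j - i) * a

/-- `p` and all `p + m i`, `i ∈ S`, are primes. -/
def Starts (S : Finset ℕ) (m : ℕ → ℕ) (p : ℕ) : Prop := p.Prime ∧ ∀ i ∈ S, (p + m i).Prime

/-- `p` and `p + h` are primes. -/
def Twin (h p : ℕ) : Prop := p.Prime ∧ (p + h).Prime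

/-- The number of the `N ≤ x` which are sums of two numbers with the property `P`. -/
noncomputable def sumsOfTwo (P : ℕ → Prop) (x : ℕ) : ℕ :=
  {N : ℕ | N ≤ x ∧ ∃ p, P p ∧ ∃ p', P p' ∧ p + p' = N}.ncard

/-- `N` is the sum of at most `K` (not necessarily distinct) numbers with the property `P`. -/
def SumOfAtMost (K : ℕ) (P : ℕ → Prop) (N : ℕ) : Prop :=
  ∃ s : Multiset ℕ, s.card ≤ K ∧ (∀ p ∈ s, P p) ∧ s.sum = N

/-- The scale `x`: at least `c x` integers `N ≤ x` are sums of two numbers with the property `P`, and all the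
integers between `q x` and `2 q x` are sums of at most `K` of them. -/
def Scale (c : ℝ) (K q : ℕ) (P : ℕ → Prop) (x : ℕ) : Prop :=
  c * x ≤ (sumsOfTwo P x : ℝ) ∧ ∀ N : ℕ, q * x ≤ N → N ≤ 2 * q * x → SumOfAtMost K P N

/-- For some `i < j` in `E` and `h = (j - i) a`, some `c > 0` and some `K`, `q ≥ 1`: for arbitrarily large `x` at
least `c x` integers up to `x` are sums of two primes `p` for which `p + h` is prime, and all integers between
`q x` and `2 q x` are sums of at most `K` of them. -/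
def Good (E : Finset ℕ) (a : ℕ) : Prop :=
  ∃ i ∈ E, ∃ j ∈ E, i < j ∧ ∃ (c : ℝ) (K q : ℕ), 0 < c ∧ 1 ≤ q ∧
    ∃ᶠ x : ℕ in atTop, Scale c K q (Twin ((j - i) * a)) x

/-- `n` avoids the residue classes of `Z p` modulo `p` for all primes `p ≤ H ^ κ`. -/
def Sifted (κ : ℝ) (H : ℕ) (Z : ℕ → Finset ℕ) (n : ℕ) : Prop :=
  ∀ p : ℕ, p.Prime → (p : ℝ) ≤ (H : ℝ) ^ κ → n % p ∉ Z p

/-- For all primes `p ≤ H ^ κ`, `Z p` is a set of at most `r` of the residues modulo `p`, not all of them. -/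
def Sieve (r : ℕ) (κ : ℝ) (H : ℕ) (Z : ℕ → Finset ℕ) : Prop :=
  ∀ p : ℕ, p.Prime → (p : ℝ) ≤ (H : ℝ) ^ κ → (Z p).card ≤ r ∧ (Z p).card < p ∧ ∀ c ∈ Z p, c < p

/-- The expected number of sifted elements of an interval of length `H`. -/
noncomputable def expected (κ : ℝ) (H : ℕ) (Z : ℕ → Finset ℕ) : ℝ :=
  H * ∏ p ∈ (Icc 1 ⌊(H : ℝ) ^ κ⌋₊).filter Nat.Prime, (1 - ((Z p).card : ℝ) / p)

open Classical in
/-- In the window `(u, u + H]` the property `P` holds for at most `ε H / log H` primes, and for at most `ε`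
times the expected number of elements of every sifted set. -/
def Few (r : ℕ) (κ ε : ℝ) (u H : ℕ) (P : ℕ → Prop) : Prop :=
  (((Ioc u (u + H)).filter (fun k => k.Prime ∧ P k)).card : ℝ) ≤ ε * (H / Real.log H) ∧
  ∀ Z : ℕ → Finset ℕ, Sieve r κ H Z →
    (((Ioc u (u + H)).filter (fun k => Sifted κ H Z k ∧ P k)).card : ℝ) ≤ ε * expected κ H Z

theorem pattern_of {E : Finset ℕ} {A : Set ℕ} {S : Finset ℕ} {m : ℕ → ℕ}
    (h : Pool.Agent.H95SD.Pat E A S m) : Pattern E A S m :=
  ⟨h.sub, h.adm, h.zero, h.diff⟩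

theorem expected_eq (κ : ℝ) (H : ℕ) (Z : ℕ → Finset ℕ) :
    expected κ H Z = H * Pool.Agent.Y843.HS.VV Z 0 ⌊(H : ℝ) ^ κ⌋₊ := rfl

theorem sieve_primes (H : ℕ) : Sieve 1 (1 / 2) H (fun _ => {0}) := by
  intro p hp _
  refine ⟨by simp, ?_, fun c hc => ?_⟩
  · rw [card_singleton]; exact hp.one_lt
  · rw [mem_singleton.1 hc]; exact hp.pos

theorem sumsOfTwo_mono {P Q : ℕ → Prop} (h : ∀ p, P p → Q p) (x : ℕ) :
    sumsOfTwo P x ≤ sumsOfTwo Q x := by
  unfold sumsOfTwo
  refine Set.ncard_le_ncard ?_ ((Set.finite_Iic x).subset fun N hN => hN.1)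
  rintro N ⟨hN, p, hp, p', hp', hs⟩
  exact ⟨hN, p, h p hp, p', h p' hp', hs⟩

theorem SumOfAtMost.mono {K : ℕ} {P Q : ℕ → Prop} {N : ℕ} (h : ∀ p, P p → Q p)
    (hP : SumOfAtMost K P N) : SumOfAtMost K Q N := by
  obtain ⟨s, h1, h2, h3⟩ := hP
  exact ⟨s, h1, fun p hp => h p (h2 p hp), h3⟩

theorem Scale.mono {c : ℝ} {K q : ℕ} {P Q : ℕ → Prop} {x : ℕ} (h : ∀ p, P p → Q p)
    (hP : Scale c K q P x) : Scale c K q Q x := by
  refine ⟨hP.1.trans ?_, fun N h1 h2 => (hP.2 N h1 h2).mono h⟩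
  exact_mod_cast sumsOfTwo_mono h x

open Classical in
theorem few_of (r : ℕ) (κ ε : ℝ) (hε : 0 < ε) : ∃ H₁ : ℕ, ∀ H u : ℕ, H₁ ≤ H → ∀ P : ℕ → Prop,
    (∀ Z : ℕ → Finset ℕ, Sieve r κ H Z → ∀ A : Finset ℕ, A ⊆ Ioc u (u + H) →
      (∀ k ∈ A, Sifted κ H Z k) → (∀ k ∈ A, P k) →
      (A.card : ℝ) ≤ ε * H * Pool.Agent.Y843.HS.VV Z 0 ⌊(H : ℝ) ^ κ⌋₊) →
    (∀ Z : ℕ → Finset ℕ, Sieve 1 (1 / 2) H Z → ∀ A : Finset ℕ, A ⊆ Ioc u (u + H) →
      (∀ k ∈ A, Sifted (1 / 2) H Z k) → (∀ k ∈ A, P k) →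
      (A.card : ℝ) ≤ ε / 4 * H * Pool.Agent.Y843.HS.VV Z 0 ⌊(H : ℝ) ^ (1 / 2 : ℝ)⌋₊) →
    Few r κ ε u H P := by
  obtain ⟨H₁, hp⟩ := Pool.Agent.H95SD.small_primes ε hε
  refine ⟨H₁, fun H u hH P h1 h2 => ⟨?_, fun Z hZ => ?_⟩⟩
  · refine hp H u hH _ (filter_subset _ _) (fun n hn => (mem_filter.1 hn).2.1) fun A' hA' hsf => ?_
    exact h2 _ (sieve_primes H) A' (hA'.trans (filter_subset _ _)) hsf
      (fun k hk => (mem_filter.1 (hA' hk)).2.2)
  · rw [expected_eq, ← mul_assoc]
    exact h1 Z hZ _ (filter_subset _ _) (fun k hk => (mem_filter.1 hk).2.1)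
      (fun k hk => (mem_filter.1 hk).2.2)

/-- `E` is an admissible set of natural numbers and `18 l < 5 |E|`; `k` only depends on `E` and `l`.

1. (the terms of an arithmetic progression of `k` terms) One constellation at every large scale `x`; one
constellation for every large integer `N`; one constellation for arbitrarily large `x`.
2. (pairs, for `l ≥ 1`, that is, for all admissible `E` with at least four elements) One of the `k` terms of an
arithmetic progression is good.
3. (for `l ≥ 1`) Almost all primes and almost all elements of sifted sets are good. -/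
theorem result (E : Finset ℕ) (hE : Admissible E id) (l : ℕ) (hl : 18 * l < 5 * E.card) :
    ∃ k : ℕ,
    (∀ a d : ℕ, 1 ≤ a → 1 ≤ d → ∃ (c : ℝ) (K q : ℕ), 0 < c ∧ 1 ≤ q ∧
      (∀ᶠ x : ℕ in atTop, ∃ (S : Finset ℕ) (m : ℕ → ℕ), l + 1 ≤ S.card ∧
        Pattern E {n | ∃ j < k, n = a + j * d} S m ∧ Scale c K q (Starts S m) x) ∧
      (∀ᶠ N : ℕ in atTop, ∃ (S : Finset ℕ) (m : ℕ → ℕ), l + 1 ≤ S.card ∧
        Pattern E {n | ∃ j < k, n = a + j * d} S m ∧ SumOfAtMost K (Starts S m) N) ∧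
      ∃ (S : Finset ℕ) (m : ℕ → ℕ), l + 1 ≤ S.card ∧
        Pattern E {n | ∃ j < k, n = a + j * d} S m ∧ ∃ᶠ x : ℕ in atTop, Scale c K q (Starts S m) x) ∧
    (1 ≤ l → ∀ a d : ℕ, 1 ≤ a → 1 ≤ d → ∃ j < k, Good E (a + j * d)) ∧
    (1 ≤ l → ∀ (r : ℕ) (κ ε : ℝ), 0 < κ → 0 < ε → ∃ H₀ : ℕ, ∀ H u : ℕ, H₀ ≤ H →
      Few r κ ε u H (fun a => ¬ Good E a)) := by
  classical
  obtain ⟨k, hk, h⟩ := Pool.Agent.H95SD.Tw.main2 E hE l hl
  have h1 : 1 ≤ l → ∀ a d : ℕ, 1 ≤ a → 1 ≤ d → ∃ j < k, Good E (a + j * d) := by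
    intro hl1 a d ha hd
    obtain ⟨c, K, q, hc, hq, h2⟩ := h a d ha hd
    obtain ⟨-, S, m, hS, hp, hx⟩ := h2 {n | ∃ j < k, n = a + j * d} (fun j hj => ⟨j, hj, rfl⟩)
    obtain ⟨i, hi, j, hj, hij, a', ⟨t, ht, rfl⟩, hpr⟩ := Pool.Agent.H95SD.Tw.two_of hl1 hS hp
    refine ⟨t, ht, i, hi, j, hj, hij, c, K, q, hc, hq, hx.mono fun x hx => ?_⟩
    have hx' : Scale c K q (Starts S m) x := hx
    exact hx'.mono hpr
  refine ⟨k, ?_, h1, ?_⟩
  · intro a d ha hd
    obtain ⟨c, K, q, hc, hq, h2⟩ := h a d ha hd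
    obtain ⟨h3, S, m, hS, hp, hx⟩ := h2 {n | ∃ j < k, n = a + j * d} (fun j hj => ⟨j, hj, rfl⟩)
    refine ⟨c, K, q, hc, hq, ?_, ?_, S, m, hS, pattern_of hp, hx⟩
    · filter_upwards [h3] with x hx
      obtain ⟨S, m, hS, hp, hx⟩ := hx
      exact ⟨S, m, hS, pattern_of hp, hx⟩
    · have hdiv : Tendsto (fun X : ℕ => X / q) atTop atTop := by
        refine tendsto_atTop.2 fun b => ?_
        filter_upwards [eventually_ge_atTop (b * q)] with X hX
        exact (Nat.le_div_iff_mul_le (by omega)).2 hX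
      filter_upwards [hdiv.eventually h3, hdiv.eventually (eventually_ge_atTop 1)] with N hN hN1
      obtain ⟨S, m, hS, hp, -, hx⟩ := hN
      refine ⟨S, m, hS, pattern_of hp, hx N (Nat.mul_div_le N q) ?_⟩
      have h4 : N < q * (N / q + 1) := Nat.lt_mul_div_succ N (by omega)
      have h5 : q * (N / q + 1) ≤ q * (2 * (N / q)) := Nat.mul_le_mul_left _ (by omega)
      calc N ≤ q * (2 * (N / q)) := by omega
        _ = 2 * q * (N / q) := by ring
  · intro hl1 r κ ε hκ hε
    obtain ⟨D₁, H₁, hs1⟩ := Pool.Agent.H95SD.sift 0 k r κ ε hk hκ hε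
    obtain ⟨D₂, H₂, hs2⟩ := Pool.Agent.H95SD.sift 0 k 1 (1 / 2) (ε / 4) hk (by norm_num) (by positivity)
    obtain ⟨H₃, hp⟩ := few_of r κ ε hε
    refine ⟨max H₁ (max H₂ H₃), fun H u hH => hp H u (by omega) _ ?_ ?_⟩
    · intro Z hZ A hA hs hb
      by_contra hcon
      push Not at hcon
      obtain ⟨a, d, ha, hd, hj, -, -⟩ := hs1 H u (by omega) Z hZ A hA hs hcon.le
      obtain ⟨j, hjk, hG⟩ := h1 hl1 a d ha hd
      exact hb _ (hj j hjk) hG
    · intro Z hZ A hA hs hb
      by_contra hcon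
      push Not at hcon
      obtain ⟨a, d, ha, hd, hj, -, -⟩ := hs2 H u (by omega) Z hZ A hA hs hcon.le
      obtain ⟨j, hjk, hG⟩ := h1 hl1 a d ha hd
      exact hb _ (hj j hjk) hG

end Pool.Agent.Results.MP_c6d112_nt.MultiplesOfAlmostAll
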