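import Pool.Agent.H95SD.Gold4

/-!
# Almost all representations `N = p + q` of almost all even numbers: `p` and `q` start the same pattern of primes

The conjecture asks that every even integer beyond 4208 is the sum of two primes which have a prime neighbour at
distance `2`. Here the distance `2` is replaced by `2 d`, where `d ≤ (log N) ^ B` is the same for both primes, and
then we can ask for much more: for every finite set `F` of integers, for almost all even `N` (up to any power of
the logarithm) and even for almost ALL representations `N = p + q` as a sum of two primes, in all windows, there is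
`1 ≤ d ≤ (log N) ^ B` such that all the numbers `p + d f` and `q + d f`, `f ∈ F`, are primes. The same is true
for almost all members of arbitrary thin families of small additive energy. So every large even number is a sum of
two numbers of this kind.

This follows from a theorem on EVERY large even `N`, without exceptions: Szemerédi's theorem relative to the set
of the primes `p` for which `N - p` is prime. In every window of length `N ^ θ` and for every set `A` of such
primes, all the elements `p` of `A`, up to `ε` times the expected number of all primes `p` of the window with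
`N - p` prime, have `p + d F ⊆ A` for some `1 ≤ d ≤ (log N) ^ B`.

Starting files: the relative Szemerédi theorem for sifted sets (`Pool.Agent.Y843.HS.fin`), the number of the
representations in windows for almost all members of families of small additive energy
(`Pool.Agent.TH935.GF.fam_win`).
-/

set_option autoImplicit false

open Finset Filter

namespace Pool.Agent.Results.MP_c6d112_nt.PatternsAroundBothPrimes

open Pool.Agent.H560R3.GB (sing energy)

/-- The primes `p ∈ (u, u + H]` for which `N - p` is prime. -/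
def Reps (N u H : ℕ) : Finset ℕ := (Ioc u (u + H)).filter (fun p => p.Prime ∧ (N - p).Prime)

/-- The prediction of Hardy and Littlewood for the number of representations of `N` in a window of length `H`. -/
noncomputable def predicted (N : ℕ) (H : ℝ) : ℝ := sing N * H / Real.log N ^ 2

/-- For some `1 ≤ d ≤ D` all the `p + d f`, `f ∈ F`, belong to `A`. -/
def Origin (F : Finset ℤ) (A : Finset ℕ) (D : ℝ) (p : ℕ) : Prop :=
  ∃ d : ℕ, 1 ≤ d ∧ (d : ℝ) ≤ D ∧ ∀ f ∈ F, ∃ a ∈ A, (a : ℤ) = (p : ℤ) + d * f

/-- For some `1 ≤ d ≤ D` all the `p + d f` and all the `q + d f`, `f ∈ F`, are primes. -/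
def Both (F : Finset ℤ) (D : ℝ) (p q : ℕ) : Prop :=
  ∃ d : ℕ, 1 ≤ d ∧ (d : ℝ) ≤ D ∧ ∀ f ∈ F, ((p : ℤ) + d * f).toNat.Prime ∧ ((q : ℤ) + d * f).toNat.Prime

open Classical in
/-- The number of the primes `p ∈ (y₁, y₂]` such that `q = N - p` is prime and `Both F D p q`. -/
noncomputable def pairs (F : Finset ℤ) (D : ℝ) (N y₁ y₂ : ℕ) : ℕ :=
  ((Ioc y₁ y₂).filter (fun p => p.Prime ∧ (N - p).Prime ∧ Both F D p (N - p))).card

/-- In every window `(y₁, y₂]` of length at least `N / (log N) ^ A` the number of the representations with the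
pattern, `d ≤ (log N) ^ B`, is up to the factor `1 ± ε` the one predicted for all representations. -/
def Good (F : Finset ℤ) (ε : ℝ) (A B N : ℕ) : Prop :=
  ∀ y₁ y₂ : ℕ, y₁ < y₂ → y₂ ≤ N → (N : ℝ) / Real.log N ^ A ≤ (y₂ : ℝ) - y₁ →
    |(pairs F (Real.log N ^ B) N y₁ y₂ : ℝ) - predicted N ((y₂ : ℝ) - y₁)| ≤
      ε * predicted N ((y₂ : ℝ) - y₁)

theorem good_iff (F : Finset ℤ) (ε : ℝ) (A B N : ℕ) :
    Good F ε A B N ↔ Pool.Agent.H95SD.Go.GoodN F ε A B N := Iff.rfl

open Classical in
/-- Let `F` be a finite set of integers.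
1. EVERY large even `N`, every set `A` of primes `p` with `N - p` prime in a window of length `H ≥ N ^ θ`: all
but at most `ε` times the predicted number of elements `p` of `A` have `p + d F ⊆ A` for some
`1 ≤ d ≤ (log N) ^ B`.
2. All but `x / (log x) ^ U` of the even numbers `N = 2 m`, `m ≤ x`, are good.
3. All but `x / (log N) ^ U` of the members of a family of `x` even numbers up to `K N` of small additive energy are
good.
4. Every large even `N` is a sum `p + q + p' + q'` of primes with `Both` for `p, q` and for `p', q'`. -/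
theorem result (F : Finset ℤ) :
    (∀ θ ε : ℝ, 0 < θ → 0 < ε → ∃ B N₀ : ℕ, ∀ N : ℕ, N₀ ≤ N → 2 ∣ N → ∀ u H : ℕ, (N : ℝ) ^ θ ≤ H → H ≤ N →
      ∀ A ⊆ Reps N u H, ((A.filter (fun p => ¬ Origin F A (Real.log N ^ B) p)).card : ℝ) ≤
        ε * predicted N H) ∧
    (∀ ε : ℝ, 0 < ε → ∀ A U : ℕ, ∃ B N₀ : ℕ, ∀ x : ℕ, N₀ ≤ x →
      (((Icc 1 x).filter (fun m => ¬ Good F ε A B (2 * m))).card : ℝ) ≤ x / Real.log x ^ U) ∧
    (∀ ε : ℝ, 0 < ε → ∀ h K C A U : ℕ, 1 ≤ h → ∃ B N₀ : ℕ, ∀ N : ℕ, N₀ ≤ N → ∀ (x : ℕ) (s : ℕ → ℕ),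
      (∀ m ∈ Icc 1 x, s m ≤ K * N ∧ 2 ∣ s m) →
      (energy h x s : ℝ) * N ≤ Real.log N ^ C * (x : ℝ) ^ (2 * h) →
      (((Icc 1 x).filter (fun m => ¬ Good F ε A B (s m))).card : ℝ) ≤ x / Real.log N ^ U) ∧
    (∃ B N₀ : ℕ, ∀ N : ℕ, N₀ ≤ N → 2 ∣ N → ∃ p q p' q' : ℕ, p.Prime ∧ q.Prime ∧ p'.Prime ∧ q'.Prime ∧
      p + q + (p' + q') = N ∧ Both F (Real.log N ^ B) p q ∧ Both F (Real.log N ^ B) p' q') := by
  refine ⟨fun θ ε hθ hε => Pool.Agent.H95SD.Go.main1 F θ ε hθ hε, fun ε hε A U => ?_,
    fun ε hε h K C A U hh => ?_, Pool.Agent.H95SD.Go.main4 F⟩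
  · exact Pool.Agent.H95SD.Go.main2 F ε hε A U
  · exact Pool.Agent.H95SD.Go.main3 F ε hε h K C A U hh

end Pool.Agent.Results.MP_c6d112_nt.PatternsAroundBothPrimes
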